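import Pool.Agent.H72.CH.Targets2

/-! Row DIC of `chl_modules`: the dichotomy for sets of coordinates. -/

set_option autoImplicit false

namespace Pool.Agent.H67.CH.DIC

open Pool.Agent.H68.BP Pool.Agent.H58.SF Pool.Agent.H53.NR
open Pool.Agent.H57.AR (tp ty Ty)
open Pool.Agent.H57.LH (Hmg tp_iff)
open Pool.Agent.H44.KR (Tyi TpOn)
open Pool.Agent.H44.FB (EmbC)
open Pool.Agent.H57.CN (lv_tp tp_comp)
open Pool.Agent.H72.CH
open Function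

variable {V : Type} {ρ σ : Sig} {𝔹 : Str ρ V} {𝔸 : Str σ V} {m : ℕ} {lv : V → V → ℕ}

theorem tpon_of {J J' : Type} {A : Set J} (s : J → J') {t w : J → V} {t' w' : J' → V}
    (ht : ∀ k ∈ A, t k = t' (s k)) (hw : ∀ k ∈ A, w k = w' (s k)) (h : tp 𝔹 t' = tp 𝔹 w') :
    TpOn 𝔹 A t w := by
  have h1 := tp_iff.1 h
  refine ⟨fun a ha b hb => ?_, fun l z hz => ?_⟩
  · rw [ht a ha, ht b hb, hw a ha, hw b hb]
    exact h1.1 _ _
  · have h2 : (fun i => t (z i)) = fun i => t' (s (z i)) := funext fun i => ht _ (hz i)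
    have h3 : (fun i => w (z i)) = fun i => w' (s (z i)) := funext fun i => hw _ (hz i)
    rw [h2, h3]
    exact h1.2 l fun i => s (z i)

theorem extn (hV : HV 𝔹 m lv) {J J' : Type} [Finite J] (A : Set J) (s : J → J') (t : J → V)
    {t' w' : J' → V} (ht : ∀ k ∈ A, t k = t' (s k)) (h : tp 𝔹 t' = tp 𝔹 w') :
    ∃ u : J → V, tp 𝔹 u = tp 𝔹 t ∧ ∀ k ∈ A, u k = w' (s k) :=
  hV.hmg J A t (fun k => w' (s k)) (tpon_of s ht (fun _ _ => rfl) h)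

theorem vec2 (u : Fin 2 → V) : u = ![u 0, u 1] := by
  funext k
  fin_cases k <;> rfl

theorem vec3 (u : Fin 3 → V) : u = ![u 0, u 1, u 2] := by
  funext k
  fin_cases k <;> rfl

/-- the third point -/
theorem e3 (hV : HV 𝔹 m lv) {x y a b : V} (c : V) (h : tp 𝔹 ![x, y] = tp 𝔹 ![a, b]) :
    ∃ v, tp 𝔹 ![x, y, v] = tp 𝔹 ![a, b, c] := by
  obtain ⟨u, hu, hA⟩ := extn hV {k : Fin 3 | k = 0 ∨ k = 1} ![(0 : Fin 2), 1, 1] ![a, b, c]
    (t' := ![a, b]) (w' := ![x, y]) (by rintro k (rfl | rfl) <;> rfl) h.symm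
  refine ⟨u 2, ?_⟩
  rw [← hu, vec3 u, hA 0 (Or.inl rfl), hA 1 (Or.inr rfl)]
  rfl

/-- the second point -/
theorem e3' (hV : HV 𝔹 m lv) {x v a c : V} (b : V) (h : tp 𝔹 ![x, v] = tp 𝔹 ![a, c]) :
    ∃ y, tp 𝔹 ![x, y, v] = tp 𝔹 ![a, b, c] := by
  obtain ⟨u, hu, hA⟩ := extn hV {k : Fin 3 | k = 0 ∨ k = 2} ![(0 : Fin 2), 1, 1] ![a, b, c]
    (t' := ![a, c]) (w' := ![x, v]) (by rintro k (rfl | rfl) <;> rfl) h.symm
  refine ⟨u 1, ?_⟩
  rw [← hu, vec3 u, hA 0 (Or.inl rfl), hA 2 (Or.inr rfl)]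
  rfl

theorem one_tp (hV : HV 𝔹 m lv) (x y : V) :
    tp 𝔹 (fun _ : Fin 1 => x) = tp 𝔹 (fun _ : Fin 1 => y) :=
  tp_iff.2 ⟨fun _ _ => ⟨fun _ => rfl, fun _ => rfl⟩, fun l _ =>
    iff_of_eq (congrFun (hV.one x y) l)⟩

theorem e2 (hV : HV 𝔹 m lv) (x a c : V) : ∃ v, tp 𝔹 ![x, v] = tp 𝔹 ![a, c] := by
  obtain ⟨u, hu, hA⟩ := extn hV {k : Fin 2 | k = 0} (fun _ => (0 : Fin 1)) ![a, c]
    (t' := fun _ => a) (w' := fun _ => x) (by rintro k rfl; rfl) (one_tp hV a x)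
  refine ⟨u 1, ?_⟩
  rw [← hu, vec2 u, hA 0 rfl]
  rfl

theorem e2' (hV : HV 𝔹 m lv) (v a c : V) : ∃ x, tp 𝔹 ![x, v] = tp 𝔹 ![a, c] := by
  obtain ⟨u, hu, hA⟩ := extn hV {k : Fin 2 | k = 1} (fun _ => (0 : Fin 1)) ![a, c]
    (t' := fun _ => c) (w' := fun _ => v) (by rintro k rfl; rfl) (one_tp hV c v)
  refine ⟨u 0, ?_⟩
  rw [← hu, vec2 u, hA 1 rfl]
  rfl

theorem e13 (hV : HV 𝔹 m lv) (v a b c : V) : ∃ x y, tp 𝔹 ![x, y, v] = tp 𝔹 ![a, b, c] := by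
  obtain ⟨u, hu, hA⟩ := extn hV {k : Fin 3 | k = 2} (fun _ => (0 : Fin 1)) ![a, b, c]
    (t' := fun _ => c) (w' := fun _ => v) (by rintro k rfl; rfl) (one_tp hV c v)
  refine ⟨u 0, u 1, ?_⟩
  rw [← hu, vec3 u, hA 2 rfl]
  rfl

theorem p01 {x y v a b c : V} (h : tp 𝔹 ![x, y, v] = tp 𝔹 ![a, b, c]) :
    tp 𝔹 ![x, y] = tp 𝔹 ![a, b] := by
  have h1 := tp_comp h ![(0 : Fin 3), 1]
  have h2 : ∀ x y v : V, (fun k => (![x, y, v] : Fin 3 → V) ((![(0 : Fin 3), 1] : Fin 2 → Fin 3) k))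
      = ![x, y] := by
    intro x y v
    funext k
    fin_cases k <;> rfl
  rw [h2, h2] at h1
  exact h1

theorem p02 {x y v a b c : V} (h : tp 𝔹 ![x, y, v] = tp 𝔹 ![a, b, c]) :
    tp 𝔹 ![x, v] = tp 𝔹 ![a, c] := by
  have h1 := tp_comp h ![(0 : Fin 3), 2]
  have h2 : ∀ x y v : V, (fun k => (![x, y, v] : Fin 3 → V) ((![(0 : Fin 3), 2] : Fin 2 → Fin 3) k))
      = ![x, v] := by
    intro x y v
    funext k
    fin_cases k <;> rfl
  rw [h2, h2] at h1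
  exact h1

theorem l01 (hV : HV 𝔹 m lv) {x y a b : V} (h : tp 𝔹 ![x, y] = tp 𝔹 ![a, b]) :
    lv x y = lv a b := lv_tp hV h 0 1

/-- chains of steps -/
theorem chain (hV : HV 𝔹 m lv) {L : ℕ} (F : Fin (L + 1) → V) (W : Fin L → V) {n : ℕ}
    (hn : n ≤ m) (h : ∀ k : Fin L, n ≤ lv (F k.castSucc) (W k) ∧ n ≤ lv (F k.succ) (W k)) :
    ∀ k, n ≤ lv (F 0) (F k) := by
  intro k
  induction k using Fin.induction with
  | zero => rw [hV.lev.pl.self]; exact hn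
  | succ k ih =>
    have h1 := hV.lev.pl.ult (F 0) (F k.castSucc) (W k)
    have h2 := hV.lev.pl.ult (F 0) (W k) (F k.succ)
    have h3 := (h k).1
    have h4 := (h k).2
    rw [hV.lev.pl.sym] at h4
    omega

/-- steps of level `lv a b` -/
theorem steps (hV : HV 𝔹 m lv) {L : ℕ} (hL : PthC 𝔹 lv L) {i : ℕ} (him : i ≤ m) {a b : V}
    (hab : lv a b + 1 = i) {P : Type} (f : (P → V) → V) (x₀ : P → V) (S : Set P) (x y : P → V)
    (hx : ∀ p, i ≤ lv (x p) (x₀ p) + 1) (hy : ∀ p, i ≤ lv (y p) (x₀ p) + 1)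
    (heq : ∀ p, p ∉ S → x p = y p)
    (hstep : ∀ x1 y1 : P → V, (∀ p, i ≤ lv (x1 p) (x₀ p) + 1) →
      (∀ p ∈ S, tp 𝔹 ![x1 p, y1 p] = tp 𝔹 ![a, b]) → (∀ p, p ∉ S → y1 p = x1 p) →
      i ≤ lv (f x1) (f y1)) : i ≤ lv (f x) (f y) := by
  classical
  have hu : ∀ u v w : V, i ≤ lv u w + 1 → lv a b ≤ lv u v → i ≤ lv v w + 1 := by
    intro u v w h1 h2
    have h3 := hV.lev.pl.ult v u w
    rw [hV.lev.pl.sym v u] at h3
    omega
  have hp : ∀ p, ∃ (X : Fin (L + 1) → V) (W : Fin L → V), X 0 = x p ∧ X (Fin.last L) = y p ∧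
      (p ∈ S → ∀ k : Fin L, tp 𝔹 ![X k.castSucc, W k] = tp 𝔹 ![a, b] ∧
        tp 𝔹 ![X k.succ, W k] = tp 𝔹 ![a, b]) ∧
      (p ∉ S → (∀ k, X k = x p) ∧ ∀ k, W k = x p) := by
    intro p
    by_cases hpS : p ∈ S
    · obtain ⟨X, W, h0, h1, h2⟩ := hL (lv a b) (lv a b) (fun _ => ![a, b]) (fun _ => ![a, b])
        ![x p, y p] (fun _ => rfl) (fun _ => rfl) (by
          have h3 := hV.lev.pl.ult (x p) (x₀ p) (y p)
          have h4 := hy p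
          have h5 := hx p
          rw [hV.lev.pl.sym] at h4
          show min (lv a b) (lv a b) ≤ lv (x p) (y p)
          omega)
      exact ⟨X, W, h0, h1, fun _ => h2, fun h => absurd hpS h⟩
    · exact ⟨fun _ => x p, fun _ => x p, rfl, heq p hpS, fun h => absurd h hpS,
        fun _ => ⟨fun _ => rfl, fun _ => rfl⟩⟩
  choose X W h0 h1 h2 h3 using hp
  have hcl : ∀ k p, i ≤ lv (X p k) (x₀ p) + 1 := by
    intro k p
    by_cases hpS : p ∈ S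
    · refine hu (x p) (X p k) (x₀ p) (hx p) ?_
      rw [← h0 p]
      refine chain hV (X p) (W p) (by omega) (fun k => ?_) k
      rw [l01 hV (h2 p hpS k).1, l01 hV (h2 p hpS k).2]
      exact ⟨le_rfl, le_rfl⟩
    · rw [(h3 p hpS).1]
      exact hx p
  have h5 := chain hV (fun k => f fun p => X p k) (fun k => f fun p => W p k) him (fun k =>
    ⟨hstep _ _ (hcl _) (fun p hpS => (h2 p hpS k).1) (fun p hpS => by
        rw [(h3 p hpS).1, (h3 p hpS).2]),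
      hstep _ _ (hcl _) (fun p hpS => (h2 p hpS k).2) (fun p hpS => by
        rw [(h3 p hpS).1, (h3 p hpS).2])⟩) (Fin.last L)
  have h6 : (fun p => X p 0) = x := funext h0
  have h7 : (fun p => X p (Fin.last L)) = y := funext h1
  simp only [h6, h7] at h5
  exact h5

theorem lvRgd (hRGI : T_RGI) (hV : HV 𝔹 m lv) (hT : Tyi 𝔸 𝔹) (hE : EmbC 𝔹) {i j : ℕ}
    {a b c a' c' d : V} (hK : Ker 𝔸 m lv i j a b c a' c' d) {x y v : V}
    (h : tp 𝔹 ![x, y, v] = tp 𝔹 ![a, b, c]) : lv x y + 1 = i ∧ Rgd 𝔸 x y :=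
  ⟨by rw [l01 hV (p01 h)]; exact hK.ab,
    hRGI V ρ σ 𝔹 𝔸 hT hE a b x y (p01 h).symm hK.rab⟩

/-- propagation -/
theorem propag (hRGI : T_RGI) (hV : HV 𝔹 m lv) (hT : Tyi 𝔸 𝔹) (hE : EmbC 𝔹) {L : ℕ}
    (hL : PthC 𝔹 lv L) {i j : ℕ} {a b c a' c' d : V} (hK : Ker 𝔸 m lv i j a b c a' c' d)
    (hS : StpC 𝔸 𝔹 lv i a b c a' c') {P : Type} [Finite P] [Nonempty P] (f : (P → V) → V)
    (hf : IsPoly 𝔸 𝔸 f) (Z : Set P) {x x'' : P → V} (hx : GoodC 𝔸 lv i f Z x)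
    (hd : ∀ p, min (lv a c) (lv a' c') ≤ lv (x p) (x'' p)) : GoodC 𝔸 lv i f Z x'' := by
  classical
  have hp : ∀ p, ∃ (X : Fin (L + 1) → V) (W : Fin L → V), X 0 = x p ∧ X (Fin.last L) = x'' p ∧
      (p ∈ Z → ∀ k : Fin L, tp 𝔹 ![X k.castSucc, W k] = tp 𝔹 ![a, c] ∧
        tp 𝔹 ![X k.succ, W k] = tp 𝔹 ![a', c']) ∧
      (p ∉ Z → ∀ k : Fin L, tp 𝔹 ![X k.castSucc, W k] = tp 𝔹 ![a', c'] ∧
        tp 𝔹 ![X k.succ, W k] = tp 𝔹 ![a, c]) := by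
    intro p
    by_cases hpZ : p ∈ Z
    · obtain ⟨X, W, h0, h1, h2⟩ := hL (lv a c) (lv a' c') (fun _ => ![a, c]) (fun _ => ![a', c'])
        ![x p, x'' p] (fun _ => rfl) (fun _ => rfl) (hd p)
      exact ⟨X, W, h0, h1, fun _ => h2, fun h => absurd hpZ h⟩
    · obtain ⟨X, W, h0, h1, h2⟩ := hL (lv a' c') (lv a c) (fun _ => ![a', c']) (fun _ => ![a, c])
        ![x p, x'' p] (fun _ => rfl) (fun _ => rfl) (by rw [min_comm]; exact hd p)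
      exact ⟨X, W, h0, h1, fun h => absurd h hpZ, fun _ => h2⟩
  choose X W h0 h1 h2 h3 using hp
  have hind : ∀ k, GoodC 𝔸 lv i f Z (fun p => X p k) := by
    intro k
    induction k using Fin.induction with
    | zero =>
      have h4 : (fun p => X p 0) = x := funext h0
      rw [h4]
      exact hx
    | succ k ih =>
      have hy : ∀ p, ∃ y, (p ∈ Z → tp 𝔹 ![X p k.castSucc, y, W p k] = tp 𝔹 ![a, b, c]) ∧
          (p ∉ Z → y = X p k.castSucc) := by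
        intro p
        by_cases hpZ : p ∈ Z
        · obtain ⟨y, hy⟩ := e3' hV b (h2 p hpZ k).1
          exact ⟨y, fun _ => hy, fun h => absurd hpZ h⟩
        · exact ⟨_, fun h => absurd h hpZ, fun _ => rfl⟩
      choose y hy1 hy2 using hy
      have hy' : ∀ p, ∃ y, (p ∉ Z → tp 𝔹 ![X p k.succ, y, W p k] = tp 𝔹 ![a, b, c]) ∧
          (p ∈ Z → y = X p k.succ) := by
        intro p
        by_cases hpZ : p ∈ Z
        · exact ⟨_, fun h => absurd hpZ h, fun _ => rfl⟩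
        · obtain ⟨y, hy⟩ := e3' hV b (h3 p hpZ k).2
          exact ⟨y, fun _ => hy, fun h => absurd h hpZ⟩
      choose y' hy1' hy2' using hy'
      exact (hS P f hf Z (fun p => X p k.castSucc) y (fun p => W p k) (fun p => X p k.succ) y'
        hy1 (fun p hp => ⟨hy2 p hp, (h3 p hp k).1⟩)
        (ih y (fun p hp => lvRgd hRGI hV hT hE hK (hy1 p hp)) hy2)
        (fun p hp => ⟨(h2 p hp k).2, hy2' p hp⟩) hy1').1
  have h5 := hind (Fin.last L)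
  have h6 : (fun p => X p (Fin.last L)) = x'' := funext h1
  rwa [h6] at h5

end Pool.Agent.H67.CH.DIC

namespace Pool.Agent.H67.CH

open Pool.Agent.H68.BP Pool.Agent.H58.SF Pool.Agent.H53.NR
open Pool.Agent.H57.AR (tp ty Ty)
open Pool.Agent.H44.KR (Tyi TpOn)
open Pool.Agent.H72.CH
open DIC

theorem pf_DIC : T_DIC := by
  classical
  intro V ρ σ 𝔹 m lv 𝔸 hRGI hV hT hE ⟨L, hL⟩ i j a b c a' c' d hK hS P _ _ f hf x₀ Z
  by_cases hZ : Uns lv i f x₀ Z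
  · exact Or.inl hZ
  right
  have hac := hK.ac
  have hab := hK.ab
  -- (1)
  obtain ⟨x1, y1, hx1, hZ1, hZ1', hlt1⟩ : ∃ x1 y1 : P → V,
      (∀ p, i ≤ lv (x1 p) (x₀ p) + 1) ∧ (∀ p ∈ Z, tp 𝔹 ![x1 p, y1 p] = tp 𝔹 ![a, b]) ∧
      (∀ p, p ∉ Z → y1 p = x1 p) ∧ lv (f x1) (f y1) < i := by
    by_contra hno
    apply hZ
    intro x y hx hy hxy
    refine steps hV hL hK.im hab f x₀ Z x y hx hy hxy fun x1 y1 h1 h2 h3 => ?_
    by_contra hlt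
    exact hno ⟨x1, y1, h1, h2, h3, not_le.1 hlt⟩
  -- (2)
  have hv : ∀ p, ∃ v, (p ∈ Z → tp 𝔹 ![x1 p, y1 p, v] = tp 𝔹 ![a, b, c]) ∧
      (p ∉ Z → tp 𝔹 ![x1 p, v] = tp 𝔹 ![a', c']) := by
    intro p
    by_cases hpZ : p ∈ Z
    · obtain ⟨v, hv⟩ := e3 hV c (hZ1 p hpZ)
      exact ⟨v, fun _ => hv, fun h => absurd hpZ h⟩
    · obtain ⟨v, hv⟩ := e2 hV (x1 p) a' c'
      exact ⟨v, fun h => absurd h hpZ, fun _ => hv⟩
  choose v hv1 hv2 using hv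
  have hxy2 : ∀ p, ∃ x y, (p ∈ Z → tp 𝔹 ![x, v p] = tp 𝔹 ![a', c'] ∧ y = x) ∧
      (p ∉ Z → tp 𝔹 ![x, y, v p] = tp 𝔹 ![a, b, c]) := by
    intro p
    by_cases hpZ : p ∈ Z
    · obtain ⟨x, hx⟩ := e2' hV (v p) a' c'
      exact ⟨x, x, fun _ => ⟨hx, rfl⟩, fun h => absurd hpZ h⟩
    · obtain ⟨x, y, hx⟩ := e13 hV (v p) a b c
      exact ⟨x, y, fun h => absurd h hpZ, fun _ => hx⟩
  choose x2 y2 h21 h22 using hxy2
  have hG2 : GoodC 𝔸 lv i f Z x2 := (hS P f hf Z x1 y1 v x2 y2 hv1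
    (fun p hp => ⟨hZ1' p hp, hv2 p hp⟩) hlt1 h21 h22).1
  have hx2 : ∀ p, min (lv a c) (lv a' c') ≤ lv (x2 p) (x₀ p) := by
    intro p
    have u1 := hV.lev.pl.ult (x2 p) (v p) (x1 p)
    have u2 := hV.lev.pl.ult (x2 p) (x1 p) (x₀ p)
    have u3 := hx1 p
    by_cases hpZ : p ∈ Z
    · have l1 := l01 hV (h21 p hpZ).1
      have l2 := l01 hV (p02 (hv1 p hpZ))
      rw [hV.lev.pl.sym (v p) (x1 p), l1, l2] at u1
      omega
    · have l1 := l01 hV (p02 (h22 p hpZ))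
      have l2 := l01 hV (hv2 p hpZ)
      rw [hV.lev.pl.sym (v p) (x1 p), l1, l2] at u1
      omega
  -- (4)
  have key : ∀ x' y' : P → V, (∀ p, i ≤ lv (x' p) (x₀ p) + 1) →
      (∀ p ∈ Zᶜ, tp 𝔹 ![x' p, y' p] = tp 𝔹 ![a, b]) → (∀ p, p ∉ Zᶜ → y' p = x' p) →
      i ≤ lv (f x') (f y') := by
    intro x' y' hx' hZ' hZ''
    have hw : ∀ p, ∃ w, (p ∉ Z → tp 𝔹 ![x' p, y' p, w] = tp 𝔹 ![a, b, c]) ∧
        (p ∈ Z → tp 𝔹 ![x' p, w] = tp 𝔹 ![a', c']) := by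
      intro p
      by_cases hpZ : p ∈ Z
      · obtain ⟨w, hw⟩ := e2 hV (x' p) a' c'
        exact ⟨w, fun h => absurd hpZ h, fun _ => hw⟩
      · obtain ⟨w, hw⟩ := e3 hV c (hZ' p hpZ)
        exact ⟨w, fun _ => hw, fun h => absurd h hpZ⟩
    choose w hw1 hw2 using hw
    have hxy : ∀ p, ∃ x y, (p ∈ Z → tp 𝔹 ![x, y, w p] = tp 𝔹 ![a, b, c]) ∧
        (p ∉ Z → tp 𝔹 ![x, w p] = tp 𝔹 ![a', c'] ∧ y = x) := by
      intro p
      by_cases hpZ : p ∈ Z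
      · obtain ⟨x, y, hx⟩ := e13 hV (w p) a b c
        exact ⟨x, y, fun _ => hx, fun h => absurd hpZ h⟩
      · obtain ⟨x, hx⟩ := e2' hV (w p) a' c'
        exact ⟨x, x, fun h => absurd h hpZ, fun _ => ⟨hx, rfl⟩⟩
    choose x y hx hy using hxy
    have hG : GoodC 𝔸 lv i f Z x := by
      refine propag hRGI hV hT hE hL hK hS f hf Z hG2 fun p => ?_
      have u1 := hV.lev.pl.ult (x2 p) (x₀ p) (x' p)
      have u2 := hV.lev.pl.ult (x2 p) (x' p) (w p)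
      have u3 := hV.lev.pl.ult (x2 p) (w p) (x p)
      have u4 := hx' p
      have u5 := hx2 p
      rw [hV.lev.pl.sym (x₀ p) (x' p)] at u1
      rw [hV.lev.pl.sym (w p) (x p)] at u3
      by_cases hpZ : p ∈ Z
      · have l1 := l01 hV (hw2 p hpZ)
        have l2 := l01 hV (p02 (hx p hpZ))
        rw [l1] at u2
        rw [l2] at u3
        omega
      · have l1 := l01 hV (p02 (hw1 p hpZ))
        have l2 := l01 hV (hy p hpZ).1
        rw [l1] at u2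
        rw [l2] at u3
        omega
    exact (hS P f hf Z x y w x' y' hx (fun p hp => ⟨(hy p hp).2, (hy p hp).1⟩)
      (hG y (fun p hp => lvRgd hRGI hV hT hE hK (hx p hp)) (fun p hp => (hy p hp).2))
      (fun p hp => ⟨hw2 p hp, hZ'' p (fun h => h hp)⟩) hw1).2
  -- (5)
  intro x y hx hy hxy
  exact steps hV hL hK.im hab f x₀ Zᶜ x y hx hy hxy key

end Pool.Agent.H67.CH
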