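import Pool.Agent.H72.CH.Targets
import Pool.Agent.H67.CN.RLX

/-! Row RLN of `chl_modules`: set form of relative local completions. -/

set_option autoImplicit false

namespace Pool.Agent.H67.CH

open Pool.Agent.H68.BP Pool.Agent.H58.SF Pool.Agent.H53.NR
open Pool.Agent.H57.AR (tp ty Ty)
open Pool.Agent.H57.LH (Hmg tp_iff)
open Pool.Agent.H72.CH
open Function

theorem lam_congr {X : Type} {m : ℕ} {lam : X → X → ℕ} (hP : PLev m lam) {x x' y : X}
    (h : lam x x' = m) : lam x y = lam x' y := by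
  refine le_antisymm ?_ ?_
  · have h1 := hP.ult x' x y
    rwa [hP.sym x' x, h, min_eq_right (hP.le x y)] at h1
  · have h1 := hP.ult x x' y
    rwa [h, min_eq_right (hP.le x' y)] at h1

theorem pf_RLN : T_RLN := by
  classical
  intro V ρ 𝔹 m lv hV
  set r : ℕ := Finset.univ.sup ρ.ar with hr
  have har : ∀ l, ρ.ar l ≤ r := fun l => Finset.le_sup (Finset.mem_univ l)
  obtain ⟨M, hM⟩ := Pool.Agent.H67.CN.pf_RLX V ρ 𝔹 m lv hV r
  refine ⟨M + M ^ r * r + 2 * r, ?_⟩
  intro X _ lam Λ s S hP hloc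
  have hmeq : ∀ v v' : V, v = v' ↔ lv v v' = m := fun v v' =>
    ⟨fun h => by rw [h, hV.lev.pl.self], fun h => hV.lev.eq _ _ h⟩
  let st : Setoid X := ⟨fun x y => lam x y = m, fun x => hP.self x,
    fun {x y} h => by rw [hP.sym]; exact h,
    fun {x y z} h h' => by
      have h1 : lam x y = m := h
      have h2 : lam y z = m := h'
      show lam x z = m
      rw [lam_congr hP h1]
      exact h2⟩
  let cl : X → Quotient st := Quotient.mk st
  let rep : Quotient st → X := Quotient.out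
  have hclrep : ∀ q, cl (rep q) = q := fun q => Quotient.out_eq q
  have hrc : ∀ x, lam (rep (cl x)) x = m := fun x => Quotient.exact (hclrep (cl x))
  have hcm : ∀ x y, cl x = cl y → lam x y = m := fun x y h => Quotient.exact h
  have hcl : ∀ x y, lam (rep (cl x)) (rep (cl y)) = lam x y := by
    intro x y
    rw [lam_congr hP (hrc x), hP.sym x, lam_congr hP (hrc y), hP.sym]
  -- the tuples
  have hy : ∀ p : {p : Λ × (Fin r → X) // ∀ i, p.2 i ∈ s p.1}, ∃ y : Fin r → V,
      (∀ i j, lv (y i) (y j) = lam (p.1.2 i) (p.1.2 j)) ∧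
      ∀ (l : Fin ρ.m) (w : Fin (ρ.ar l) → Fin r),
        𝔹 l (fun i => y (w i)) ↔ S p.1.1 l (fun i => p.1.2 (w i)) := by
    rintro ⟨⟨a, t⟩, ht⟩
    obtain ⟨f, -, hf2⟩ := hloc (Finset.univ.image t) (by
      refine (Finset.card_image_le).trans ?_
      rw [Finset.card_univ, Fintype.card_fin]
      omega)
    have hmem : ∀ i, t i ∈ Finset.univ.image t := fun i =>
      Finset.mem_image_of_mem t (Finset.mem_univ i)
    refine ⟨fun i => f (t i), fun i j => (hf2 a).1 _ (hmem i) _ (hmem j) (ht i) (ht j),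
      fun l w => (hf2 a).2 l (fun i => t (w i)) fun i => ⟨hmem _, ht _⟩⟩
  choose y hy1 hy2 using hy
  have hA : ∀ (f : X → V) (p : {p : Λ × (Fin r → X) // ∀ i, p.2 i ∈ s p.1}),
      (∀ i j, lv (f (p.1.2 i)) (f (p.1.2 j)) = lam (p.1.2 i) (p.1.2 j)) →
      (∀ (l : Fin ρ.m) (w : Fin (ρ.ar l) → Fin r),
        𝔹 l (fun i => f (p.1.2 (w i))) ↔ S p.1.1 l (fun i => p.1.2 (w i))) →
      tp 𝔹 (fun i => f (p.1.2 i)) = tp 𝔹 (y p) := by
    intro f p h1 h2
    refine tp_iff.2 ⟨fun i j => ?_, fun l w => ?_⟩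
    · rw [hmeq, hmeq, h1, hy1]
    · rw [hy2]
      exact h2 l w
  have hB : ∀ (U : Finset X) (f : X → V), (∀ a, (∀ x ∈ U, ∀ y ∈ U, x ∈ s a → y ∈ s a →
        lv (f x) (f y) = lam x y) ∧
        ∀ (l : Fin ρ.m) (z : Fin (ρ.ar l) → X), (∀ i, z i ∈ U ∧ z i ∈ s a) →
          (𝔹 l (fun i => f (z i)) ↔ S a l z)) →
      ∀ p : {p : Λ × (Fin r → X) // ∀ i, p.2 i ∈ s p.1}, (∀ i, p.1.2 i ∈ U) →
        tp 𝔹 (fun i => f (p.1.2 i)) = tp 𝔹 (y p) := by
    intro U f hf p hp
    refine hA f p (fun i j => (hf p.1.1).1 _ (hp i) _ (hp j) (p.2 i) (p.2 j)) fun l w => ?_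
    exact (hf p.1.1).2 l (fun i => p.1.2 (w i)) fun i => ⟨hp _, p.2 _⟩
  have hfeq : ∀ (U : Finset X) (f : X → V), (∀ x ∈ U, ∀ y ∈ U, lam x y ≤ lv (f x) (f y)) →
      ∀ x ∈ U, ∀ x' ∈ U, lam x x' = m → f x = f x' := by
    intro U f hf x hx x' hx' h
    refine hV.lev.eq _ _ (le_antisymm (hV.lev.pl.le _ _) ?_)
    rw [← h]
    exact hf x hx x' hx'
  have hC : ∀ p p' : {p : Λ × (Fin r → X) // ∀ i, p.2 i ∈ s p.1},
      (∀ i, cl (p.1.2 i) = cl (p'.1.2 i)) → tp 𝔹 (y p) = tp 𝔹 (y p') := by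
    intro p p' h
    obtain ⟨f, hf1, hf2⟩ := hloc (Finset.univ.image p.1.2 ∪ Finset.univ.image p'.1.2) (by
      have h1 := Finset.card_union_le (Finset.univ.image p.1.2) (Finset.univ.image p'.1.2)
      have h2 : (Finset.univ.image p.1.2).card ≤ r := by
        refine (Finset.card_image_le).trans ?_
        rw [Finset.card_univ, Fintype.card_fin]
      have h3 : (Finset.univ.image p'.1.2).card ≤ r := by
        refine (Finset.card_image_le).trans ?_
        rw [Finset.card_univ, Fintype.card_fin]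
      omega)
    have hm1 : ∀ i, p.1.2 i ∈ Finset.univ.image p.1.2 ∪ Finset.univ.image p'.1.2 := fun i =>
      Finset.mem_union_left _ (Finset.mem_image_of_mem _ (Finset.mem_univ i))
    have hm2 : ∀ i, p'.1.2 i ∈ Finset.univ.image p.1.2 ∪ Finset.univ.image p'.1.2 := fun i =>
      Finset.mem_union_right _ (Finset.mem_image_of_mem _ (Finset.mem_univ i))
    have h4 : (fun i => f (p.1.2 i)) = fun i => f (p'.1.2 i) :=
      funext fun i => hfeq _ f hf1 _ (hm1 i) _ (hm2 i) (hcm _ _ (h i))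
    rw [← hB _ f hf2 p hm1, ← hB _ f hf2 p' hm2, h4]
  obtain ⟨F, hF1, hF2⟩ := hM (Quotient st) {p : Λ × (Fin r → X) // ∀ i, p.2 i ∈ s p.1}
    (fun q q' => lam (rep q) (rep q')) (fun p i => cl (p.1.2 i)) y
    ⟨fun x y => hP.le _ _, fun x => hP.self _, fun x y => hP.sym _ _,
      fun x y z => hP.ult _ _ _⟩
    (fun q q' h => by
      rw [← hclrep q, ← hclrep q']
      exact Quotient.sound h)
    (fun p i j => by rw [hy1, hcl])
    (by
      intro U hU
      let tw : (Fin r → Quotient st) → Fin r → X := fun q =>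
        if h : ∃ p : {p : Λ × (Fin r → X) // ∀ i, p.2 i ∈ s p.1}, ∀ i, cl (p.1.2 i) = q i then
          (Classical.choose h).1.2 else fun i => rep (q i)
      obtain ⟨f, hf1, hf2⟩ := hloc (U.image rep ∪
        (Fintype.piFinset fun _ : Fin r => U).biUnion fun q => Finset.univ.image (tw q)) (by
          have h1 := Finset.card_union_le (U.image rep)
            ((Fintype.piFinset fun _ : Fin r => U).biUnion fun q => Finset.univ.image (tw q))
          have h2 : (U.image rep).card ≤ M := Finset.card_image_le.trans hU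
          have h3 : ((Fintype.piFinset fun _ : Fin r => U).biUnion fun q =>
              Finset.univ.image (tw q)).card ≤ M ^ r * r := by
            refine (Finset.card_biUnion_le_card_mul _ _ r fun q _ => ?_).trans ?_
            · refine (Finset.card_image_le).trans ?_
              rw [Finset.card_univ, Fintype.card_fin]
            · rw [Fintype.card_piFinset_const]
              exact Nat.mul_le_mul_right r (Nat.pow_le_pow_left hU r)
          omega)
      have hm1 : ∀ q ∈ U, rep q ∈ U.image rep ∪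
          (Fintype.piFinset fun _ : Fin r => U).biUnion fun q => Finset.univ.image (tw q) :=
        fun q hq => Finset.mem_union_left _ (Finset.mem_image_of_mem rep hq)
      refine ⟨fun q => f (rep q), fun q hq q' hq' => hf1 _ (hm1 q hq) _ (hm1 q' hq'), ?_⟩
      intro p hp
      have h : ∃ p' : {p : Λ × (Fin r → X) // ∀ i, p.2 i ∈ s p.1},
          ∀ i, cl (p'.1.2 i) = cl (p.1.2 i) := ⟨p, fun i => rfl⟩
      have h5 := Classical.choose_spec h
      have h6 : tw (fun i => cl (p.1.2 i)) = (Classical.choose h).1.2 := dif_pos h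
      have hm2 : ∀ i, (Classical.choose h).1.2 i ∈ U.image rep ∪
          (Fintype.piFinset fun _ : Fin r => U).biUnion fun q => Finset.univ.image (tw q) := by
        intro i
        refine Finset.mem_union_right _ (Finset.mem_biUnion.2 ⟨fun i => cl (p.1.2 i),
          Fintype.mem_piFinset.2 hp, ?_⟩)
        rw [h6]
        exact Finset.mem_image_of_mem _ (Finset.mem_univ i)
      have h7 : (fun i => f (rep (cl (p.1.2 i)))) = fun i => f ((Classical.choose h).1.2 i) := by
        funext i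
        refine hfeq _ f hf1 _ (hm1 _ (hp i)) _ (hm2 i) (hcm _ _ ?_)
        rw [hclrep]
        exact (h5 i).symm
      show tp 𝔹 (fun i => f (rep (cl (p.1.2 i)))) = tp 𝔹 (y p)
      rw [h7, hB _ f hf2 _ hm2]
      exact hC _ _ h5)
  refine ⟨fun x => F (cl x), fun x x' => by rw [hF1, hcl], ?_⟩
  intro a l z hz
  have h0 : 0 < ρ.ar l := hV.ar l
  let t : Fin r → X := fun i => if h : (i : ℕ) < ρ.ar l then z ⟨i, h⟩ else z ⟨0, h0⟩
  have ht : ∀ i, t i ∈ s a := by
    intro i
    show (if h : (i : ℕ) < ρ.ar l then z ⟨i, h⟩ else z ⟨0, h0⟩) ∈ s a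
    split_ifs
    · exact hz _
    · exact hz _
  have hw : ∀ i : Fin (ρ.ar l), t (Fin.castLE (har l) i) = z i := fun i => dif_pos i.2
  have h1 := (tp_iff.1 (hF2 ⟨(a, t), ht⟩)).2 l (Fin.castLE (har l))
  have h2 := hy2 ⟨(a, t), ht⟩ l (Fin.castLE (har l))
  have h3 := h1.trans h2
  simp only [hw] at h3
  exact h3

end Pool.Agent.H67.CH
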