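import Pool.Agent.H32.CH.Targets

/-! MP_aaa807_co, module ST: one step of the process -/

set_option autoImplicit false
set_option linter.unusedSectionVars false

namespace Pool.Agent.H67.CH.ST

open Finset Pool.Agent.H32.CH
open scoped Classical

variable {V : Type} [Fintype V] {G : SimpleGraph V} {A : Finset V} {z b : V}

/-- degrees after the exchange: no neighbour among z, b -/
theorem dg_same {x : V} (h1 : ¬ G.Adj x z) (h2 : ¬ G.Adj x b) :
    dg G (insert b (A.erase z)) x = dg G A x := by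
  rw [dg_insert_not h2, dg_erase_not h1]

/-- degrees after the exchange: adjacent to z -/
theorem dg_lose {x : V} (hzA : z ∈ A) (h1 : G.Adj x z) (h2 : ¬ G.Adj x b) :
    dg G (insert b (A.erase z)) x + 1 = dg G A x := by
  rw [dg_insert_not h2, dg_erase_adj hzA h1]

/-- components which do not see z, b survive -/
theorem comp_same {C : Finset V} (hC : Comp G A C) (hz : z ∉ C) (hb : ∀ x ∈ C, ¬ G.Adj x b) :
    Comp G (insert b (A.erase z)) C := by
  obtain ⟨h1, h2, h3⟩ := hC
  refine ⟨?_, h2, ?_⟩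
  · intro x hx
    refine mem_insert_of_mem (mem_erase.2 ⟨?_, h1 hx⟩)
    rintro rfl
    exact hz hx
  · intro x hx y hy hxy
    rcases mem_insert.1 hy with rfl | hy
    · exact absurd hxy (hb x hx)
    · exact h3 x hx y (mem_erase.1 hy).2 hxy

/-- choice of the vertex z -/
theorem choose_z {H Z : Finset V} (hH : Hist G A H) (hZ : Prob G A Z)
    (hz : ∀ f ∈ Z, ∃ z ∈ Z, TT G A z ∧ z ≠ f ∧ ¬ G.Adj f z) :
    ∃ z ∈ Z, TT G A z ∧ ¬ TokH G A H z ∧ ∀ a, TokH G A H a → ¬ G.Adj a z := by
  obtain ⟨-, -, hJ2, -, -⟩ := hH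
  have hcomp := hZ.1
  by_cases hex : ∃ a ∈ Z, TokH G A H a
  · obtain ⟨f, hfZ, hf⟩ := hex
    obtain ⟨z, hzZ, hzT, hne, hadj⟩ := hz f hfZ
    refine ⟨z, hzZ, hzT, ?_, ?_⟩
    · intro h
      exact hne (hJ2 Z hZ z hzZ f hfZ h hf)
    · intro a ha haz
      have haZ : a ∈ Z := hcomp.2.2 z hzZ a ha.1.1 haz.symm
      have : a = f := hJ2 Z hZ a haZ f hfZ ha hf
      rw [this] at haz
      exact hadj haz
  · push Not at hex
    obtain ⟨f, hfZ⟩ := hcomp.2.1.1
    obtain ⟨z, hzZ, hzT, -, -⟩ := hz f hfZ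
    refine ⟨z, hzZ, hzT, hex z hzZ, ?_⟩
    intro a ha haz
    have haZ : a ∈ Z := hcomp.2.2 z hzZ a ha.1.1 haz.symm
    exact hex a haZ ha

theorem pf_ST (h1 : T_F1) (h2 : T_U) (h3 : T_CU) (h5 : T_CX) : T_ST := by
  intro V _ G A H Z hD hT hH hZ hzz
  obtain ⟨z, hzZ, hzT, hnz, hnadj⟩ := choose_z hH hZ hzz
  obtain ⟨hExt, hJ1, hJ2, hJ3, hJ4⟩ := hH
  obtain ⟨hztk, b, hbK, hzb⟩ := hzT
  have hzA : z ∈ A := hztk.1
  have hbA : b ∉ A := hbK.1
  have hbz : b ≠ z := by
    rintro rfl
    exact hbA hzA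
  obtain ⟨b', hb'A, hbb'⟩ := dg_pos.1 (Nat.pos_of_ne_zero hbK.2)
  rw [mem_compl] at hb'A
  have hbH : b ∉ H := fun h => hnz ⟨hztk, b, h, hzb⟩
  obtain ⟨hE', hZe, P, u, w, hP, hPZ, hPprob, hP6, huP, hwP, huw, hnuw, hdu, hdw, hdP, hbu, hbw,
    hbn, hiff⟩ := h1 V G A hD hT hExt Z z b hZ hzZ hbK hzb
  set A' := insert b (A.erase z) with hA'
  have huA : u ∈ A := hP.1 huP
  have hwA : w ∈ A := hP.1 hwP
  have hzP : z ∉ P := fun h => hPZ (h3 V G A P Z z hP hZ.1 h hzZ)
  have hdb : dg G A' b = 2 := hPprob.2.1 b (mem_insert_self b P)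
  have hMin : MinC G A := hExt.1.1
  have hTnb : ∀ x, G.Adj x z → ¬ G.Adj x b := fun x hx hxb => hT x z b hx hzb hxb.symm
  have hzA' : z ∉ A' := by
    intro h
    rcases mem_insert.1 h with h | h
    · exact hbz h.symm
    · exact (mem_erase.1 h).1 rfl
  have hnA' : ∀ y, y ∉ A → y ≠ b → y ∉ A' := by
    intro y hy hyb h
    rcases mem_insert.1 h with h | h
    · exact hyb h
    · exact hy (mem_erase.1 h).2
  have hA'A : ∀ y, y ∈ A' → y ≠ b → y ∈ A := by
    intro y hy hyb
    rcases mem_insert.1 hy with h | h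
    · exact absurd h hyb
    · exact (mem_erase.1 h).2
  -- the claim
  have claim : ∀ h ∈ H, ¬ Own G A h P := by
    intro h hh hown
    obtain ⟨-, -, uh, wh, huhP, hwhP, hne, -, hduh, hdwh, -, hhu, hhw, ⟨y, hyu, hyw, hhy⟩, hall⟩ :=
      hown
    have e1 : uh = u ∨ uh = w := by
      by_contra hcon
      push Not at hcon
      have := hdP uh huhP hcon.1 hcon.2
      omega
    have e2 : wh = u ∨ wh = w := by
      by_contra hcon
      push Not at hcon
      have := hdP wh hwhP hcon.1 hcon.2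
      omega
    have hadj : G.Adj h u ∧ G.Adj h w := by
      rcases e1 with rfl | rfl <;> rcases e2 with rfl | rfl
      · exact absurd rfl hne
      · exact ⟨hhu, hhw⟩
      · exact ⟨hhw, hhu⟩
      · exact absurd rfl hne
    have hhb : h ≠ b := by
      rintro rfl
      exact hbH hh
    refine h2 V G A hD hT hMin u w z b b' h huA hwA huw hnuw hdu hdw hztk hbA hb'A hbb' hzb.symm
      hbu hbw (hJ1 h hh) hhb hadj.1 hadj.2 ?_
    by_cases hyA : y ∈ A
    · right
      right
      have hdy : dg G A y = 2 := by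
        rcases hall y hhy with h | h | h | h
        · exact absurd h hyu
        · exact absurd h hyw
        · exact absurd hyA h
        · exact h
      have htok : TokH G A H y := ⟨⟨hyA, hdy⟩, h, hh, hhy.symm⟩
      refine ⟨y, ⟨hyA, hdy⟩, hhy, ?_, hnadj y htok⟩
      rintro rfl
      exact hnz htok
    · left
      refine ⟨hJ1 h hh, ?_⟩
      have : 0 < dg G Aᶜ h := dg_pos.2 ⟨y, mem_compl.2 hyA, hhy⟩
      omega
  -- facts on owned paths of A
  have hRfact : ∀ h ∈ H, ∀ R, Own G A h R → z ∉ R ∧ (∀ x ∈ R, ¬ G.Adj x b) ∧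
      (∀ x ∈ R, ¬ G.Adj x z) := by
    intro h hh R hown
    have hRP : R ≠ P := by
      rintro rfl
      exact claim h hh hown
    obtain ⟨hRC, -, uh, wh, huh, hwh, -, -, hduh, -⟩ := hown
    have hzR : z ∉ R := by
      intro hz
      have hRZ : R = Z := h3 V G A R Z z hRC hZ.1 hz hzZ
      have := hZ.2.1 uh (hRZ ▸ huh)
      omega
    refine ⟨hzR, ?_, ?_⟩
    · intro x hx hxb
      rcases hbn x (hRC.1 hx) hxb.symm with rfl | rfl | rfl
      · exact hzR hx
      · exact hRP (h3 V G A R P x hRC hP hx huP)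
      · exact hRP (h3 V G A R P x hRC hP hx hwP)
    · intro x hx hxz
      exact hzR (hRC.2.2 x hx z hzA hxz)
  have hTokdg : ∀ y, TokH G A H y → dg G A' y = 2 := by
    intro y hy
    have hyz : y ≠ z := by
      rintro rfl
      exact hnz hy
    have hnb : ¬ G.Adj y b := by
      intro hyb
      rcases hbn y hy.1.1 hyb.symm with h | h | h
      · exact hyz h
      · have := hy.1.2
        rw [h] at this
        omega
      · have := hy.1.2
        rw [h] at this
        omega
    rw [hA', dg_same (hnadj y hy) hnb]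
    exact hy.1.2
  -- owned paths stay owned
  have hOwn : ∀ h ∈ H, ∀ R, Own G A h R → Own G A' h R := by
    intro h hh R hown
    obtain ⟨hzR, hRb, hRz⟩ := hRfact h hh R hown
    obtain ⟨hRC, hR6, uh, wh, huh, hwh, hne, hnuv, hduh, hdwh, hdR, hhu, hhw, hy, hall⟩ := hown
    have hsame : ∀ x ∈ R, dg G A' x = dg G A x := fun x hx => dg_same (hRz x hx) (hRb x hx)
    refine ⟨comp_same hRC hzR hRb, hR6, uh, wh, huh, hwh, hne, hnuv, ?_, ?_, ?_, hhu, hhw, hy, ?_⟩
    · rw [hsame uh huh]; exact hduh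
    · rw [hsame wh hwh]; exact hdwh
    · intro x hx hxu hxw
      rw [hsame x hx]
      exact hdR x hx hxu hxw
    · intro y hhy
      by_cases hyA : y ∈ A
      · rcases hall y hhy with h4 | h4 | h4 | h4
        · exact Or.inl h4
        · exact Or.inr (Or.inl h4)
        · exact absurd hyA h4
        · exact Or.inr (Or.inr (Or.inr (hTokdg y ⟨⟨hyA, h4⟩, h, hh, hhy.symm⟩)))
      · by_cases hyb : y = b
        · rw [hyb]
          exact Or.inr (Or.inr (Or.inr hdb))
        · exact Or.inr (Or.inr (Or.inl (hnA' y hyA hyb)))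
  -- z owns the rest of its cycle
  obtain ⟨z1, z2, hz12, hz1A, hz2A, hzz1, hzz2, hzn⟩ := dg_two hztk.2
  have hz1Z : z1 ∈ Z := hZ.1.2.2 z hzZ z1 hz1A hzz1
  have hz2Z : z2 ∈ Z := hZ.1.2.2 z hzZ z2 hz2A hzz2
  have hd1 : dg G A' z1 = 1 := by
    have h4 := dg_lose (A := A) hzA hzz1.symm (hTnb z1 hzz1.symm)
    have h6 := hZ.2.1 z1 hz1Z
    rw [← hA'] at h4
    omega
  have hd2 : dg G A' z2 = 1 := by
    have h4 := dg_lose (A := A) hzA hzz2.symm (hTnb z2 hzz2.symm)
    have h6 := hZ.2.1 z2 hz2Z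
    rw [← hA'] at h4
    omega
  have hOz : Own G A' z (Z.erase z) := by
    refine ⟨hZe, ?_, z1, z2, mem_erase.2 ⟨hzz1.ne', hz1Z⟩, mem_erase.2 ⟨hzz2.ne', hz2Z⟩, hz12, ?_,
      hd1, hd2, ?_, hzz1, hzz2, ⟨b, ?_, ?_, hzb⟩, ?_⟩
    · have h4 : ({z1, z2} : Finset V) ⊆ Z := by
        intro x hx
        simp only [mem_insert, mem_singleton] at hx
        rcases hx with rfl | rfl
        · exact hz1Z
        · exact hz2Z
      have h6 := card_le_card h4
      rw [card_pair hz12] at h6
      have h7 := hZ.2.2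
      rw [card_erase_of_mem hzZ]
      omega
    · intro h4
      exact hT z z1 z2 hzz1 h4 hzz2.symm
    · intro x hx hx1 hx2
      obtain ⟨hxz, hxZ⟩ := mem_erase.1 hx
      have hxA : x ∈ A := hZ.1.1 hxZ
      have e1 : ¬ G.Adj x z := by
        intro h4
        rcases hzn x hxA h4.symm with h6 | h6
        · exact hx1 h6
        · exact hx2 h6
      have e2 : ¬ G.Adj x b := by
        intro h4
        rcases hbn x hxA h4.symm with h6 | h6 | h6
        · exact hxz h6
        · rw [h6] at hxZ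
          exact hPZ (h3 V G A P Z u hP hZ.1 huP hxZ)
        · rw [h6] at hxZ
          exact hPZ (h3 V G A P Z w hP hZ.1 hwP hxZ)
      rw [hA', dg_same e1 e2]
      exact hZ.2.1 x hxZ
    · rintro rfl
      exact hbA hz1A
    · rintro rfl
      exact hbA hz2A
    · intro y hzy
      by_cases hyA : y ∈ A
      · rcases hzn y hyA hzy with h4 | h4
        · exact Or.inl h4
        · exact Or.inr (Or.inl h4)
      · by_cases hyb : y = b
        · rw [hyb]
          exact Or.inr (Or.inr (Or.inr hdb))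
        · exact Or.inr (Or.inr (Or.inl (hnA' y hyA hyb)))
  -- the new tokens at H'
  have hTok' : ∀ a, TokH G A' (insert z H) a → a = b ∨ TokH G A H a := by
    rintro a ⟨⟨haA', hda⟩, h, hh, hah⟩
    by_cases hab : a = b
    · exact Or.inl hab
    have haA := hA'A a haA' hab
    rcases mem_insert.1 hh with rfl | hh
    · exfalso
      rcases hzn a haA hah.symm with h4 | h4
      · rw [h4] at hda
        omega
      · rw [h4] at hda
        omega
    · right
      obtain ⟨R, hown⟩ := hJ3 h hh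
      have hown' := hOwn h hh R hown
      obtain ⟨hRfz, hRfb, hRfz2⟩ := hRfact h hh R hown
      obtain ⟨-, -, uh, wh, huh, hwh, -, -, hduh, hdwh, -, -, -, -, hall⟩ := hown
      have e1 : dg G A' uh = 1 := by
        rw [hA', dg_same (hRfz2 uh huh) (hRfb uh huh)]
        exact hduh
      have e2 : dg G A' wh = 1 := by
        rw [hA', dg_same (hRfz2 wh hwh) (hRfb wh hwh)]
        exact hdwh
      rcases hall a hah.symm with h4 | h4 | h4 | h4
      · rw [h4] at hda
        omega
      · rw [h4] at hda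
        omega
      · exact absurd haA h4
      · exact ⟨⟨haA, h4⟩, h, hh, hah⟩
  -- no token at H in P
  have hPtok : ∀ a ∈ P, ¬ TokH G A H a := by
    intro a ha htok
    rcases hJ4 P hP a ha htok with h4 | ⟨h, hh, h4⟩
    · have := h4.2.1 u huP
      omega
    · exact claim h hh h4
  have hbP : b ∉ P := fun h => hbA (hP.1 h)
  refine ⟨A', insert z H, ⟨hE', ?_, ?_, ?_, ?_⟩, ?_⟩
  · intro h hh
    rcases mem_insert.1 hh with rfl | hh
    · exact hzA'
    · refine hnA' h (hJ1 h hh) ?_
      rintro rfl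
      exact hbH hh
  · intro Z2 hZ2 a ha a' ha' hta hta'
    rcases (hiff Z2).1 hZ2 with rfl | ⟨hZ2', -⟩
    · have key : ∀ c ∈ insert b P, TokH G A' (insert z H) c → c = b := by
        intro c hc htc
        rcases hTok' c htc with h4 | h4
        · exact h4
        · rcases mem_insert.1 hc with h6 | h6
          · exact h6
          · exact absurd h4 (hPtok c h6)
      rw [key a ha hta, key a' ha' hta']
    · have hbZ2 : b ∉ Z2 := fun h => hbA (hZ2'.1.1 h)
      have key : ∀ c ∈ Z2, TokH G A' (insert z H) c → TokH G A H c := by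
        intro c hc htc
        rcases hTok' c htc with h4 | h4
        · rw [h4] at hc
          exact absurd hc hbZ2
        · exact h4
      exact hJ2 Z2 hZ2' a ha a' ha' (key a ha hta) (key a' ha' hta')
  · intro h hh
    rcases mem_insert.1 hh with rfl | hh
    · exact ⟨Z.erase h, hOz⟩
    · obtain ⟨R, hown⟩ := hJ3 h hh
      exact ⟨R, hOwn h hh R hown⟩
  · intro C hC a ha hta
    rcases hTok' a hta with h4 | h4
    · left
      rw [h4] at ha
      have : C = insert b P := h3 V G A' C (insert b P) b hC hPprob.1 ha (mem_insert_self b P)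
      rw [this]
      exact hPprob
    · obtain ⟨C0, hC0, haC0⟩ := h5 V G A a h4.1.1
      rcases hJ4 C0 hC0 a haC0 h4 with h6 | ⟨h, hh, h6⟩
      · by_cases hCZ : C0 = Z
        · right
          have haz : a ≠ z := by
            rintro rfl
            exact hnz h4
          have haZe : a ∈ Z.erase z := mem_erase.2 ⟨haz, hCZ ▸ haC0⟩
          have : C = Z.erase z := h3 V G A' C (Z.erase z) a hC hZe ha haZe
          rw [this]
          exact ⟨z, mem_insert_self z H, hOz⟩
        · left
          have h7 : Prob G A' C0 := (hiff C0).2 (Or.inr ⟨h6, hCZ⟩)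
          have : C = C0 := h3 V G A' C C0 a hC h7.1 ha haC0
          rw [this]
          exact h7
      · right
        have h7 := hOwn h hh C0 h6
        have : C = C0 := h3 V G A' C C0 a hC h7.1 ha haC0
        rw [this]
        exact ⟨h, mem_insert_of_mem hh, h7⟩
  · have hzH : z ∉ H := fun h => hJ1 z h hzA
    rw [card_insert_of_notMem hzH]
    omega

end Pool.Agent.H67.CH.ST
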