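import Pool.Agent.H32.CH.Targets

/-! MP_aaa807_co, module W4 -/

set_option autoImplicit false

namespace Pool.Agent.H67.CH.W4

open Finset Pool.Agent.H32.CH
open scoped Classical

theorem pf_W4 (h : T_COR) : T_W4 := by
  intro m hm
  refine ⟨2 * m + 1, fun i => {3 * (i : ℕ), 3 * (i : ℕ) + 1, 3 * (i : ℕ) + 2}, ⟨?_, ?_, ?_⟩, ?_⟩
  · intro i
    rw [card_insert_of_notMem (by simp), card_pair (by omega)]
  · intro i x hx
    have hi := i.2
    simp only [mem_insert, mem_singleton] at hx
    rw [mem_range]
    omega
  · intro i j hij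
    have hne : (i : ℕ) ≠ j := fun e => hij (Fin.ext e)
    rw [disjoint_left]
    intro x hx hx2
    simp only [mem_insert, mem_singleton] at hx hx2
    omega
  · intro r hr hcard _
    have hex : ∀ i : ℕ, ∃ p : ℕ, i < 2 * m + 1 → p ∈ r ∧ 3 * i ≤ p ∧ p ≤ 3 * i + 2 := by
      intro i
      by_cases hi : i < 2 * m + 1
      · obtain ⟨p, hp⟩ := card_eq_one.1 (hcard ⟨i, hi⟩)
        have hp2 : p ∈ r ∩ {3 * i, 3 * i + 1, 3 * i + 2} := by
          rw [hp]; exact mem_singleton_self p
        rw [mem_inter] at hp2
        obtain ⟨h1, h2⟩ := hp2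
        simp only [mem_insert, mem_singleton] at h2
        exact ⟨p, fun _ => ⟨h1, by omega, by omega⟩⟩
      · exact ⟨0, fun hh => absurd hh hi⟩
    choose P hP using hex
    have hb : ∀ i < 2 * m + 1, 3 * i ≤ P i ∧ P i ≤ 3 * i + 2 := fun i hi => (hP i hi).2
    obtain ⟨s, hs1, hs2⟩ := h (6 * m + 4) (2 * m + 1) P (fun i => i % 2 = 1)
      (by omega)
      (fun i hi => by have := hb i hi; omega)
      (fun i hi => by
        have h1 := hb i (by omega)
        have h2 := hb (i + 1) hi
        omega)
      (by
        have h1 := hb 0 (by omega)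
        have h2 := hb (2 * m) (by omega)
        have h3 : 2 * m + 1 - 1 = 2 * m := by omega
        rw [h3]
        omega)
      (fun i _ h1 => by omega)
      (by
        rintro ⟨-, h1⟩
        omega)
      (fun i _ _ => by omega)
      (by
        intro h0
        have h1 := hb 0 (by omega)
        have h2 := hb (2 * m) (by omega)
        have h3 : 2 * m + 1 - 1 = 2 * m := by omega
        rw [h3] at h0
        omega)
      (fun i hi _ hor => by
        have h1 := hb i (by omega)
        have h2 := hb (i + 1) (by omega)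
        have h3 := hb (i + 2) hi
        omega)
      (by
        intro h1
        omega)
      (by
        intro h1
        omega)
    refine ⟨s, ?_, hs2⟩
    intro x hx
    obtain ⟨i, hi, rfl⟩ := mem_image.1 (hs1 hx)
    exact (hP i (mem_range.1 hi)).1

end Pool.Agent.H67.CH.W4
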