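import Pool.Agent.H32.CH.Targets

/-! MP_aaa807_co, module WX: windows on a problematic component with one forbidden pair -/

set_option autoImplicit false
set_option linter.unusedSectionVars false

namespace Pool.Agent.H67.CH.WX

open Finset Pool.Agent.H32.CH
open scoped Classical

theorem pf_WX (h2 : T_ROT) (h3 : T_GC) : T_WX := by
  intro V _ G A C f hC hd h13 hmod hE hadj p d hpd hlt
  obtain ⟨m, hm⟩ : ∃ m, C.card = 6 * m + 1 := ⟨C.card / 6, by omega⟩
  have hm2 : 2 ≤ m := by omega
  obtain ⟨q, w, ⟨hw1, hw2, hw3⟩, hr⟩ := h2 m hm2 p d hpd (by omega)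
  rw [← hm] at hw2 hr
  have hE' := hE
  obtain ⟨hinj, hCeq, -, -⟩ := hE
  have hinjOn : Set.InjOn f (range C.card : Finset ℕ) := by
    intro i hi j hj hij
    exact hinj i (mem_range.1 (mem_coe.1 hi)) j (mem_range.1 (mem_coe.1 hj)) hij
  have hsub : ∀ i, ∀ x ∈ (w i).image f, x ∈ C := by
    intro i x hx
    obtain ⟨j, hj, rfl⟩ := mem_image.1 hx
    rw [hCeq]
    exact mem_image_of_mem f (hw2 i hj)
  refine ⟨q, fun i => (w i).image f, ⟨?_, ?_, ?_, ?_⟩, ?_⟩
  · intro i
    rw [card_image_of_injOn (hinjOn.mono (by exact_mod_cast hw2 i))]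
    exact hw1 i
  · intro i x hx
    exact hsub i x hx
  · intro i x hx
    exact hd x (hsub i x hx)
  · intro i j hij
    rw [disjoint_left]
    intro x hx hx2
    obtain ⟨a, ha, rfl⟩ := mem_image.1 hx
    obtain ⟨b, hb, hab⟩ := mem_image.1 hx2
    have hbr := mem_range.1 (hw2 j hb)
    have har := mem_range.1 (hw2 i ha)
    have : b = a := hinj b hbr a har hab
    rw [this] at hb
    exact disjoint_left.1 (hw3 i j hij) ha hb
  · intro R hR hpR
    set r := (range C.card).filter (fun j => f j ∈ R) with hrdef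
    have hrc : ∀ i, (r ∩ w i).card = 1 := by
      intro i
      have e1 : R ∩ (w i).image f = (r ∩ w i).image f := by
        ext x
        simp only [mem_inter, mem_image, hrdef, mem_filter]
        constructor
        · rintro ⟨hxR, a, ha, rfl⟩
          exact ⟨a, ⟨⟨hw2 i ha, hxR⟩, ha⟩, rfl⟩
        · rintro ⟨a, ⟨⟨-, haR⟩, ha⟩, rfl⟩
          exact ⟨haR, a, ha, rfl⟩
      have e2 := hR i
      rw [e1, card_image_of_injOn] at e2
      · exact e2
      · refine hinjOn.mono ?_
        intro x hx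
        exact hw2 i (mem_inter.1 (mem_coe.1 hx)).2
    obtain ⟨s, hs1, hs2⟩ := hr r (filter_subset _ _) hrc (by
      rintro ⟨hp1, hp2⟩
      exact hpR ⟨(mem_filter.1 hp1).2, (mem_filter.1 hp2).2⟩)
    refine ⟨s.image f, ?_, h3 V G C C.card f s (by omega) hE' hadj hs2⟩
    intro x hx
    obtain ⟨a, ha, rfl⟩ := mem_image.1 hx
    exact (mem_filter.1 (hs1 ha)).2

end Pool.Agent.H67.CH.WX
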